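import Pool.Agent.Helper70.BN.St2

/-!
# Project BN (MP_a2f62e_al), module BAVG: averages over subgroups
-/

set_option autoImplicit false

namespace Pool.Agent.Helper99.BN

open Pool.Agent.Helper70.BN Pool.Agent.Helper75.MX Pool.Agent.Helper70.ML

variable {G : Type} [Group G] [Finite G]

omit [Finite G] in
theorem avg_eq (B : Subgroup G) [Fintype B] (f : G → ℝ) :
    avg B f = (1 / (Nat.card B : ℝ)) • ∑ b : B, L (b : G) f := by
  unfold avg
  rw [finsum_eq_sum_of_fintype]

theorem card_ne (B : Subgroup G) : (Nat.card B : ℝ) ≠ 0 := by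
  have : 0 < Nat.card B := Nat.card_pos
  exact_mod_cast this.ne'

theorem avg_fix (B : Subgroup G) (f : G → ℝ) (b : G) (hb : b ∈ B) : L b (avg B f) = avg B f := by
  have := Fintype.ofFinite B
  rw [avg_eq, L_smul, L_sum]
  congr 1
  rw [← Equiv.sum_comp (Equiv.mulLeft (⟨b, hb⟩ : B)) (fun c : B => L (c : G) f)]
  apply Finset.sum_congr rfl
  intro c _
  rw [← Helper75.MX.L_mul]
  rfl

theorem avg_inv (B : Subgroup G) (f : G → ℝ) (h : B ≤ stab f) : avg B f = f := by
  have := Fintype.ofFinite B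
  rw [avg_eq]
  have e : ∀ b : B, L (b : G) f = f := fun b => mem_stab.1 (h b.2)
  simp_rw [e]
  rw [Finset.sum_const, Finset.card_univ, ← Nat.card_eq_fintype_card, ← Nat.cast_smul_eq_nsmul ℝ,
    smul_smul, one_div, inv_mul_cancel₀ (card_ne B), one_smul]

theorem avg_add (B : Subgroup G) (f h : G → ℝ) : avg B (f + h) = avg B f + avg B h := by
  have := Fintype.ofFinite B
  rw [avg_eq, avg_eq, avg_eq, ← smul_add, ← Finset.sum_add_distrib]
  rfl

theorem avg_smul (B : Subgroup G) (c : ℝ) (f : G → ℝ) : avg B (c • f) = c • avg B f := by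
  have := Fintype.ofFinite B
  rw [avg_eq, avg_eq, smul_comm c]
  congr 1
  rw [Finset.smul_sum]
  rfl

theorem avg_L (B : Subgroup G) (b : G) (hb : b ∈ B) (f : G → ℝ) : avg B (L b f) = avg B f := by
  have := Fintype.ofFinite B
  rw [avg_eq, avg_eq]
  congr 1
  rw [← Equiv.sum_comp (Equiv.mulRight (⟨b, hb⟩ : B)) (fun c : B => L (c : G) f)]
  apply Finset.sum_congr rfl
  intro c _
  rw [← Helper75.MX.L_mul]
  rfl

theorem L_avg (B : Subgroup G) (y : G) (f : G → ℝ) :
    L y (avg B f) = (1 / (Nat.card B : ℝ)) • ∑ᶠ b : B, L (y * b) f := by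
  have := Fintype.ofFinite B
  rw [avg_eq, L_smul, L_sum, finsum_eq_sum_of_fintype]
  congr 1
  apply Finset.sum_congr rfl
  intro c _
  rw [← Helper75.MX.L_mul]

theorem avg_sub (B R : Subgroup G) (f : G → ℝ) (hRB : R ≤ B)
    (h : ∀ b ∈ B, ∃ r ∈ R, r⁻¹ * b ∈ stab f) : avg B f = avg R f := by
  have := Fintype.ofFinite B
  have := Fintype.ofFinite R
  have h1 : ∑ r : R, ∑ b : B, L ((r : G) * (b : G)) f = (Nat.card R : ℝ) • ∑ b : B, L (b : G) f := by
    have e : ∀ r : R, ∑ b : B, L ((r : G) * (b : G)) f = ∑ b : B, L (b : G) f := by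
      intro r
      rw [← Equiv.sum_comp (Equiv.mulLeft (⟨(r : G), hRB r.2⟩ : B)) (fun c : B => L (c : G) f)]
      rfl
    simp_rw [e]
    rw [Finset.sum_const, Finset.card_univ, ← Nat.card_eq_fintype_card, ← Nat.cast_smul_eq_nsmul ℝ]
  have h2 : ∑ r : R, ∑ b : B, L ((r : G) * (b : G)) f = (Nat.card B : ℝ) • ∑ r : R, L (r : G) f := by
    rw [Finset.sum_comm]
    have e : ∀ b : B, ∑ r : R, L ((r : G) * (b : G)) f = ∑ r : R, L (r : G) f := by
      intro b
      obtain ⟨s, hs, hb⟩ := h b b.2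
      rw [← Equiv.sum_comp (Equiv.mulRight (⟨s, hs⟩ : R)) (fun c : R => L (c : G) f)]
      apply Finset.sum_congr rfl
      intro r _
      have e2 : (r : G) * (b : G) = ((r : G) * s) * (s⁻¹ * b) := by group
      rw [e2, Helper75.MX.L_mul, mem_stab.1 hb]
      rfl
    simp_rw [e]
    rw [Finset.sum_const, Finset.card_univ, ← Nat.card_eq_fintype_card, ← Nat.cast_smul_eq_nsmul ℝ]
  rw [avg_eq, avg_eq]
  have h3 := h1.symm.trans h2
  have hB := card_ne B
  have hR := card_ne R
  have h4 : ∑ b : B, L (b : G) f = ((Nat.card R : ℝ)⁻¹ * (Nat.card B : ℝ)) • ∑ r : R, L (r : G) f := by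
    rw [← smul_smul, ← h3, smul_smul, inv_mul_cancel₀ hR, one_smul]
  rw [h4, smul_smul]
  congr 1
  field_simp

theorem hBAVG : StBAVG := by
  intro G _ _ B
  refine ⟨?_, ?_, ?_, ?_, ?_, ?_, ?_⟩
  · intro f b hb
    exact mem_stab.2 (avg_fix B f b hb)
  · exact fun f h => avg_inv B f h
  · exact fun f h => avg_add B f h
  · exact fun c f => avg_smul B c f
  · exact fun b hb f => avg_L B b hb f
  · exact fun y f => L_avg B y f
  · exact fun R f hRB h => avg_sub B R f hRB h

end Pool.Agent.Helper99.BN
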